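import Mathlib

/-!
Valuative faithfulness: definitions, and statements of the pieces (as propositions).
-/

open MvPolynomial

namespace VF

universe u

/-- rational functions in `r` variables -/
abbrev Rat (F : Type u) [Field F] (r : ℕ) := FractionRing (MvPolynomial (Fin r) F)

/-- the map on rational functions induced by a field embedding -/
noncomputable def frMap {F E : Type u} [Field F] [Field E] (e : F →+* E) (r : ℕ) :
    Rat F r →+* Rat E r :=
  IsFractionRing.lift (g := (algebraMap (MvPolynomial (Fin r) E) (Rat E r)).comp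
    (MvPolynomial.map e)) ((IsFractionRing.injective _ _).comp (MvPolynomial.map_injective e e.injective))

theorem frMap_algebraMap {F E : Type u} [Field F] [Field E] (e : F →+* E) (r : ℕ)
    (f : MvPolynomial (Fin r) F) :
    frMap e r (algebraMap _ _ f) = algebraMap _ _ (MvPolynomial.map e f) := by
  simp [frMap]

/-- the values of the `t i` are multiplicatively independent -/
def MI {L Γ : Type u} [Field L] [LinearOrderedCommGroupWithZero Γ] (v : Valuation L Γ) {r : ℕ}
    (t : Fin r → L) : Prop :=
  ∀ n : Fin r → ℤ, ∏ i, v (t i) ^ n i = 1 → n = 0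

/-- **V1** existence of a monomial-like valuation ring -/
def StV1 : Prop :=
  ∀ (K L : Type u) [Field K] [Field L] [Algebra K L] (r : ℕ) (T : Fin r → L),
    AlgebraicIndependent K T →
    ∃ O : ValuationSubring L, (∀ c : K, algebraMap K L c ∈ O) ∧ MI O.valuation T

/-- **V2** extension of a valuation ring of `F(u)` to `E(u)`, trivial on `E` -/
def StV2 : Prop :=
  ∀ (F E : Type u) [Field F] [Field E] (e : F →+* E) (r : ℕ) (w : ValuationSubring (Rat F r)),
    (∀ c : F, algebraMap _ (Rat F r) (C c : MvPolynomial (Fin r) F) ∈ w) →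
    ∃ O : ValuationSubring (Rat E r),
      (∀ c : E, algebraMap _ (Rat E r) (C c : MvPolynomial (Fin r) E) ∈ O) ∧
      (∀ z ∈ w, frMap e r z ∈ O) ∧
      (∀ z, w.valuation z < 1 → O.valuation (frMap e r z) < 1)

/-- **V3** linear disjointness: `F` relatively algebraically closed in `E` -/
def StV3 : Prop :=
  ∀ (E L : Type u) [Field E] [CharZero E] [Field L] (F : Subfield E),
    (∀ x : E, IsAlgebraic F x → x ∈ F) → ∀ (j : E →+* L) (m : ℕ) (x : Fin m → E),
    LinearIndependent F x → ∀ c : Fin m → L,
    (∀ i, ∃ p : Polynomial F, p ≠ 0 ∧ p.eval₂ (j.comp F.subtype) (c i) = 0) →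
    ∑ i, c i * j (x i) = 0 → ∀ i, c i = 0

/-- **V4** residues are algebraic (Abhyankar) -/
def StV4 : Prop :=
  ∀ (F : Type u) [Field F] (r : ℕ) (w : ValuationSubring (Rat F r)),
    (∀ c : F, algebraMap _ (Rat F r) (C c : MvPolynomial (Fin r) F) ∈ w) →
    ∀ t : Fin r → Rat F r, MI w.valuation t → (∀ i, t i ≠ 0) →
    ∀ x ∈ w, ∃ p : Polynomial F, p ≠ 0 ∧
      w.valuation (p.eval₂ ((algebraMap _ (Rat F r)).comp (C : F →+* MvPolynomial (Fin r) F)) x) < 1

/-- **V4'** algebraic independence from multiplicative independence of the values -/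
def StV4' : Prop :=
  ∀ (K L : Type u) [Field K] [Field L] [Algebra K L] (O : ValuationSubring L),
    (∀ c : K, algebraMap K L c ∈ O) → ∀ (r : ℕ) (t : Fin r → L), MI O.valuation t →
    (∀ i, t i ≠ 0) → AlgebraicIndependent K t

/-- **V5** selection of independent elements from a generating family -/
def StV5 : Prop :=
  ∀ (A : Type u) [AddCommGroup A] [IsAddTorsionFree A] (r : ℕ) (a : Fin r → A) (S : Set A),
    LinearIndependent ℤ a → (∀ i, a i ∈ AddSubgroup.closure S) →
    ∃ b : Fin r → A, (∀ i, b i ∈ S) ∧ LinearIndependent ℤ b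

/-- the subfield generated by the coefficients of the polynomials in `τ` -/
noncomputable def coefField {K : Type u} [Field K] {O : Subring K} {r : ℕ}
    (τ : Set (MvPolynomial (Fin r) O)) : Subfield K :=
  Subfield.closure {x | ∃ g ∈ τ, ∃ m, x = (coeff m g : O)}

/-- **V6** the main theorem -/
def StV6 : Prop :=
  ∀ (K Ω : Type u) [Field K] [CharZero K] [Field Ω] (O : Subring K) (ρ : O →+* Ω) (r : ℕ)
    (G : Set (MvPolynomial (Fin r) O)),
    (∀ τ : Finset (MvPolynomial (Fin r) O), (τ : Set (MvPolynomial (Fin r) O)) ⊆ G →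
      τ.card ≤ r + 1 → ∀ x : K,
        IsAlgebraic (coefField (τ : Set (MvPolynomial (Fin r) O))) x → x ∈ O) →
    ∀ T : Fin r → MvPolynomial (Fin r) O, (∀ i, T i ∈ Submonoid.closure G) →
    AlgebraicIndependent K (fun i => MvPolynomial.map O.subtype (T i)) →
    AlgebraicIndependent Ω (fun i => MvPolynomial.map ρ (T i))

end VF
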