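import Pool.Agent.Helper5.V.Defs

/-!
V3: linear disjointness of an algebraic extension and of an extension in which the base is
relatively algebraically closed (characteristic zero).
-/

open Polynomial

namespace VF

universe u

section

variable {F E L : Type u} [Field F] [Field E] [Field L] [Algebra F E] [Algebra E L] [Algebra F L]
  [IsScalarTower F E L]

theorem minpoly_map (hF : ∀ x : E, IsAlgebraic F x → x ∈ (algebraMap F E).range) (θ : L)
    (hθ : IsIntegral F θ) : minpoly E θ = (minpoly F θ).map (algebraMap F E) := by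
  have hθE : IsIntegral E θ := hθ.tower_top
  have hdvd : minpoly E θ ∣ (minpoly F θ).map (algebraMap F E) :=
    minpoly.dvd_map_of_isScalarTower F E θ
  have hlift := integralClosure.mem_lifts_of_monic_of_dvd_map E (minpoly.monic hθ)
    (minpoly.monic hθE) hdvd
  have hlift2 : minpoly E θ ∈ lifts (algebraMap F E) := by
    rw [lifts_iff_coeff_lifts] at hlift ⊢
    intro n
    obtain ⟨p, hp⟩ := hlift n
    have h1 : IsIntegral F ((algebraMap (integralClosure F E) E) p) := p.2
    rw [hp] at h1
    obtain ⟨y, hy⟩ := hF _ h1.isAlgebraic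
    exact ⟨y, hy⟩
  obtain ⟨q, hq⟩ := hlift2
  have hq' : q.map (algebraMap F E) = minpoly E θ := hq
  have hdeg : q.natDegree = (minpoly E θ).natDegree := by
    rw [← hq', natDegree_map]
  have hqmonic : q.Monic := by
    have := minpoly.monic hθE
    rw [← hq'] at this
    exact (monic_map_iff).mp this
  have hq0 : aeval θ q = 0 := by
    have h1 := minpoly.aeval E θ
    rw [← hq', aeval_map_algebraMap] at h1
    exact h1
  have h2 := minpoly.min F θ hqmonic hq0
  have h3 : (minpoly F θ).natDegree ≤ q.natDegree := natDegree_le_natDegree h2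
  have h4 : ((minpoly F θ).map (algebraMap F E)).natDegree ≤ (minpoly E θ).natDegree := by
    rw [natDegree_map]; omega
  exact (eq_of_monic_of_dvd_of_natDegree_le (minpoly.monic hθE) ((minpoly.monic hθ).map _) hdvd h4).symm

theorem lin_disj_alg [CharZero F] (hF : ∀ x : E, IsAlgebraic F x → x ∈ (algebraMap F E).range)
    (m : ℕ) (x : Fin m → E) (hx : LinearIndependent F x) (c : Fin m → L)
    (hc : ∀ i, IsIntegral F (c i)) (h : ∑ i, c i * algebraMap E L (x i) = 0) : ∀ i, c i = 0 := by
  classical
  set M := IntermediateField.adjoin F (Set.range c) with hM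
  have : FiniteDimensional F M := by
    apply IntermediateField.finiteDimensional_adjoin
    rintro y ⟨i, rfl⟩
    exact hc i
  obtain ⟨α, hα⟩ := Field.exists_primitive_element F M
  set θ : L := (α : L) with hθdef
  have hαint : IsIntegral F α := IsIntegral.of_finite F α
  have hθ : IsIntegral F θ := hαint.map (IntermediateField.val M)
  have hrep : ∀ i, ∃ q : F[X], q.degree < (minpoly F θ).degree ∧ aeval θ q = c i := by
    intro i
    have hci : c i ∈ M := IntermediateField.subset_adjoin F _ ⟨i, rfl⟩
    have h1 : (⟨c i, hci⟩ : M) ∈ IntermediateField.adjoin F {α} := by rw [hα]; trivial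
    have h2 : (⟨c i, hci⟩ : M) ∈ Algebra.adjoin F {α} := by
      rw [← IntermediateField.adjoin_simple_toSubalgebra_of_isAlgebraic hαint.isAlgebraic]
      exact h1
    rw [Algebra.adjoin_singleton_eq_range_aeval] at h2
    obtain ⟨p, hp⟩ := h2
    have hp' : aeval α p = (⟨c i, hci⟩ : M) := hp
    refine ⟨p %ₘ minpoly F θ, degree_modByMonic_lt _ (minpoly.monic hθ), ?_⟩
    have h3 : aeval θ p = c i := by
      have := congrArg (IntermediateField.val M) hp'
      rw [← Polynomial.aeval_algHom_apply] at this
      exact this
    rw [← h3]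
    have h4 := congrArg (aeval θ) (modByMonic_add_div p (minpoly F θ))
    rw [map_add, map_mul, minpoly.aeval, zero_mul, add_zero] at h4
    exact h4
  choose q hqdeg hq using hrep
  set Q : E[X] := ∑ i, C (x i) * (q i).map (algebraMap F E) with hQ
  have hQ0 : aeval θ Q = 0 := by
    rw [hQ, map_sum, ← h]
    refine Finset.sum_congr rfl fun i _ => ?_
    rw [map_mul, aeval_C, aeval_map_algebraMap, hq, mul_comm]
  have hmp := minpoly_map hF θ hθ
  have hQdeg : Q.degree < (minpoly E θ).degree := by
    rw [hmp, degree_map]
    refine (degree_sum_le _ _).trans_lt ?_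
    rw [Finset.sup_lt_iff]
    · intro i _
      refine (degree_mul_le _ _).trans_lt ?_
      have h1 : (C (x i)).degree ≤ 0 := degree_C_le
      have h2 : ((q i).map (algebraMap F E)).degree = (q i).degree := degree_map _ _
      rw [h2]
      calc (C (x i)).degree + (q i).degree ≤ 0 + (q i).degree := by gcongr
        _ = (q i).degree := zero_add _
        _ < _ := hqdeg i
    · rw [bot_lt_iff_ne_bot, ne_eq, degree_eq_bot]
      exact (minpoly.ne_zero hθ)
  have hQz : Q = 0 := by
    by_contra hne
    have := minpoly.degree_le_of_ne_zero E θ hne hQ0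
    exact absurd hQdeg (not_lt.mpr this)
  have hcoef : ∀ i, q i = 0 := by
    intro i
    ext e
    have h1 : ∑ i, (q i).coeff e • x i = 0 := by
      have h2 := congrArg (fun p => Polynomial.coeff p e) hQz
      simp only [hQ, finsetSum_coeff, coeff_C_mul, coeff_map, coeff_zero] at h2
      rw [← h2]
      refine Finset.sum_congr rfl fun i _ => ?_
      rw [Algebra.smul_def, mul_comm]
    have h3 := Fintype.linearIndependent_iff.mp hx (fun i => (q i).coeff e) h1 i
    rw [coeff_zero]
    exact h3
  intro i
  rw [← hq i, hcoef i, map_zero]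

end

/-- **V3** -/
theorem stV3 : StV3.{u} := by
  intro E L _ _ _ F hF j m x hx c hc h
  let _ : Algebra E L := j.toAlgebra
  apply lin_disj_alg (F := F) (E := E) (L := L) (fun x hx => ⟨⟨x, hF x hx⟩, rfl⟩) m x hx c
  · intro i
    obtain ⟨p, hp, hp0⟩ := hc i
    exact IsAlgebraic.isIntegral ⟨p, hp, hp0⟩
  · exact h

end VF
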