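import Pool.Agent.Helper5.V.Defs

/-!
V4, V4': elements with multiplicatively independent values are algebraically independent, and
the residues of a valuation of maximal rational rank are algebraic.
-/

namespace VF

universe u

open MvPolynomial

/-- dominance: a sum of monomials with independent values and unit coefficients is nonzero -/
theorem sum_ne_zero {L Γ : Type u} [Field L] [LinearOrderedCommGroupWithZero Γ] (v : Valuation L Γ)
    {r : ℕ} (t : Fin r → L) (ht : MI v t) (ht0 : ∀ i, t i ≠ 0) (s : Finset (Fin r →₀ ℕ))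
    (hs : s.Nonempty) (c : (Fin r →₀ ℕ) → L) (hc : ∀ b ∈ s, v (c b) = 1) :
    ∑ b ∈ s, c b * ∏ i, t i ^ b i ≠ 0 := by
  classical
  set W : (Fin r →₀ ℕ) → Γ := fun b => ∏ i, v (t i) ^ b i with hW
  have hv0 : ∀ i, v (t i) ≠ 0 := fun i => (Valuation.ne_zero_iff v).mpr (ht0 i)
  have hWv : ∀ b, v (∏ i, t i ^ b i) = W b := by
    intro b
    rw [map_prod]
    exact Finset.prod_congr rfl fun i _ => map_pow v _ _
  have hW0 : ∀ b, W b ≠ 0 := fun b =>
    Finset.prod_ne_zero_iff.mpr fun i _ => pow_ne_zero _ (hv0 i)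
  have hinj : ∀ b b', W b = W b' → b = b' := by
    intro b b' h
    have h1 : ∏ i, v (t i) ^ ((b i : ℤ) - (b' i : ℤ)) = 1 := by
      have h2 : ∀ i, v (t i) ^ ((b i : ℤ) - (b' i : ℤ)) = v (t i) ^ b i / v (t i) ^ b' i := by
        intro i
        rw [zpow_sub₀ (hv0 i), zpow_natCast, zpow_natCast]
      simp only [h2]
      rw [Finset.prod_div_distrib]
      exact (div_eq_one_iff_eq (hW0 b')).mpr h
    have h3 := ht _ h1
    ext i
    have := congrFun h3 i
    simp only [Pi.zero_apply] at this
    omega
  obtain ⟨b0, hb0, hmax⟩ := s.exists_max_image W hs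
  intro h0
  rw [← Finset.add_sum_erase s _ hb0] at h0
  have h1 : v (∑ b ∈ s.erase b0, c b * ∏ i, t i ^ b i) < W b0 := by
    apply Valuation.map_sum_lt v (hW0 b0)
    intro b hb
    rw [Finset.mem_erase] at hb
    rw [map_mul, hc b hb.2, one_mul, hWv]
    exact lt_of_le_of_ne (hmax b hb.2) fun h => hb.1 (hinj b b0 h)
  have h2 : v (c b0 * ∏ i, t i ^ b0 i) = W b0 := by
    rw [map_mul, hc b0 hb0, one_mul, hWv]
  rw [eq_neg_of_add_eq_zero_left h0, Valuation.map_neg] at h2
  exact absurd h2 (ne_of_lt h1)

/-- **V4'** -/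
theorem stV4' : StV4'.{u} := by
  classical
  intro K L _ _ _ O hK r t ht ht0
  rw [algebraicIndependent_iff]
  intro p hp
  by_contra hne
  have h1 := sum_ne_zero O.valuation t ht ht0 p.support (support_nonempty.mpr hne)
    (fun b => algebraMap K L (coeff b p)) (by
      intro b hb
      have hb0 : coeff b p ≠ 0 := mem_support_iff.mp hb
      have h2 : O.valuation (algebraMap K L (coeff b p)) ≤ 1 :=
        (O.valuation_le_one_iff _).mpr (hK _)
      have h3 : O.valuation (algebraMap K L (coeff b p)⁻¹) ≤ 1 :=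
        (O.valuation_le_one_iff _).mpr (hK _)
      apply le_antisymm h2
      rw [map_inv₀, map_inv₀] at h3
      have h4 : O.valuation (algebraMap K L (coeff b p)) ≠ 0 := by
        rw [Valuation.ne_zero_iff]
        simpa using hb0
      exact (inv_le_one₀ (zero_lt_iff.mpr h4)).mp h3)
  apply h1
  rw [← hp, aeval_def, eval₂_eq']

/-- **V4** -/
theorem stV4 : StV4.{u} := by
  classical
  intro F _ r w hF t ht ht0 x hx
  by_contra hcon
  push Not at hcon
  set ι : F →+* Rat F r := (algebraMap _ (Rat F r)).comp (C : F →+* MvPolynomial (Fin r) F) with hι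
  have hιalg : ι = algebraMap F (Rat F r) := by
    ext c
    rw [IsScalarTower.algebraMap_apply F (MvPolynomial (Fin r) F) (Rat F r)]
    rfl
  have hval : ∀ p : Polynomial F, p ≠ 0 → w.valuation (Polynomial.aeval x p) = 1 := by
    intro p hp
    apply le_antisymm
    · rw [w.valuation_le_one_iff, Polynomial.aeval_eq_sum_range]
      apply sum_mem
      intro i _
      rw [Algebra.smul_def, ← hιalg]
      exact mul_mem (hF _) (pow_mem hx i)
    · have := hcon p hp
      rw [hιalg] at this
      exact this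
  have htr : Transcendental F x := by
    rw [transcendental_iff]
    intro p hp
    by_contra hne
    have := hval p hne
    rw [hp, map_zero] at this
    exact zero_ne_one this
  set K1 := IntermediateField.adjoin F {x} with hK1
  have hK1w : ∀ c : K1, algebraMap K1 (Rat F r) c ∈ w := by
    rintro ⟨c, hc⟩
    show c ∈ w
    rw [hK1, IntermediateField.mem_adjoin_simple_iff] at hc
    obtain ⟨p, q, rfl⟩ := hc
    by_cases hq : q = 0
    · simp [hq]
    by_cases hp : p = 0
    · simp [hp]
    rw [← w.valuation_le_one_iff, map_div₀, hval p hp, hval q hq, div_one]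
  have hind := stV4' K1 (Rat F r) w hK1w r t ht ht0
  have h1 : (r : Cardinal.{u}) ≤ Algebra.trdeg K1 (Rat F r) := by
    have := hind.lift_cardinalMk_le_trdeg
    simpa using this
  have h2 : (1 : Cardinal.{u}) ≤ Algebra.trdeg F K1 := by
    rw [Cardinal.one_le_iff_pos]
    have : Algebra.Transcendental F K1 := by
      refine ⟨⟨⟨x, IntermediateField.mem_adjoin_simple_self F x⟩, ?_⟩⟩
      intro halg
      apply htr
      exact IsAlgebraic.algHom (IntermediateField.val K1) halg
    exact _root_.trdeg_pos F K1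
  have h3 : Algebra.trdeg F K1 + Algebra.trdeg K1 (Rat F r) ≤ Algebra.trdeg F (Rat F r) :=
    trdeg_add_le
  have h4 : Algebra.trdeg F (Rat F r) = (r : Cardinal.{u}) := by
    rw [← trdeg_add_eq F (MvPolynomial (Fin r) F) (A := Rat F r)]
    have : Algebra.IsAlgebraic (MvPolynomial (Fin r) F) (Rat F r) :=
      IsLocalization.isAlgebraic _ (nonZeroDivisors (MvPolynomial (Fin r) F))
    rw [trdeg_eq_zero (R := MvPolynomial (Fin r) F) (A := Rat F r), MvPolynomial.trdeg_of_isDomain]
    simp
  rw [h4] at h3
  have h5 : (1 : Cardinal.{u}) + r ≤ r := (add_le_add h2 h1).trans h3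
  have h6 : ((1 + r : ℕ) : Cardinal.{u}) ≤ (r : ℕ) := by exact_mod_cast h5
  rw [Nat.cast_le] at h6
  omega

end VF
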