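import Pool.Agent.Helper5.V.Shift
import Pool.Agent.Helper6.LP.Main

/-!
The interface: from the valuative faithfulness theorem to hitting results for compositions of
products of few types.
-/

namespace VF

open MvPolynomial Pool.Agent.Helper5 Pool.Agent.Helper5.D4

variable {n : ℕ}

theorem sum_mem_G {r M : ℕ} (h : r ≤ M) (J : Fin r → Fin n) (u : Fin r → ℚ) :
    (fun v => ∑ j, if J j = v then u j else 0) ∈ G n M := by
  classical
  have h0 : (fun _ => 0 : Fin n → ℚ) ∈ G n 0 := ⟨fun _ => 0, by funext i; simp [gen]⟩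
  have h1 := G_step (κ := M) h0 (fun v => ∑ j, if J j = v then u j else 0)
    (Finset.univ.image J) ((Finset.card_image_le).trans (by simpa using h)) (by
      intro v hv
      have : ∀ j, ¬ J j = v := by
        intro j hj
        apply hv
        rw [Finset.mem_image]
        exact ⟨j, Finset.mem_univ _, hj⟩
      simp [this])
  rwa [Nat.zero_add] at h1

/-- `γ + SV_M` is injective on algebras generated by few polynomials whose Jacobian minors do not
vanish on `γ` -/
theorem Phi_inj {σ : Type*} (γ : Fin n → MvPolynomial σ ℚ) (N M0 : ℕ) (hN : N ≤ M0)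
    (p : Fin N → MvPolynomial (Fin n) ℚ)
    (H1 : ∀ M ≤ N, ∀ e : Fin M → Fin N, ∀ J : Fin M → Fin n,
      (Matrix.of fun i j => pderiv (J j) (p (e i))).det ≠ 0 →
      aeval γ (Matrix.of fun i j => pderiv (J j) (p (e i))).det ≠ 0)
    (P : MvPolynomial (Fin n) ℚ) (hP : P ∈ Algebra.adjoin ℚ (Set.range p)) (hP0 : P ≠ 0) :
    Phi γ M0 P ≠ 0 := by
  classical
  obtain ⟨b, hb, halg⟩ := exists_basis (k := ℚ) p
  have hbN : b.card ≤ N := by
    have := Finset.card_le_univ b
    simpa using this
  set e : Fin b.card ≃ b := b.equivFin.symm with he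
  have hind : AlgebraicIndependent ℚ (fun i => p (e i)) := by
    have h1 : AlgebraicIndependent ℚ (fun i : b => p i) := hb
    exact h1.comp e e.injective
  obtain ⟨J, hJ⟩ := exists_jacobian_minor _ hind
  have hγ := H1 b.card hbN (fun i => e i) J hJ
  have hind2 := algInd_shR γ J (fun i => p (e i)) hγ
  have hind3 : AlgebraicIndepOn ℚ (fun i => shR γ J (p i)) (b : Set (Fin N)) := by
    show AlgebraicIndependent ℚ (fun i : b => shR γ J (p i))
    have h1 : (fun i : b => shR γ J (p i)) = (fun i => shR γ J (p (e i))) ∘ e.symm := by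
      funext i
      simp
    rw [h1]
    exact hind2.comp _ e.symm.injective
  have hne := faithful (shR γ J) p (b : Set (Fin N)) hind3 halg P hP hP0
  obtain ⟨s, u, hu⟩ := exists_point γ J P hne
  refine Phi_ne_zero γ M0 P s _ ?_ hu
  have h1 := sum_mem_G (n := n) (hbN.trans hN) J u
  simpa using h1

/-- **from the valuative theorem to the generator** -/
theorem algInd_of_V6 (hV6 : StV6.{0}) (k t : ℕ) {σ : Type} (γ : Fin n → MvPolynomial σ ℚ)
    (Gs As : Set (MvPolynomial (Fin n) ℚ)) (r : ℕ) (hr : r ≤ k) (J : Fin r → Fin n)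
    (H2 : ∀ g : Fin (k + 1) → MvPolynomial (Fin n) ℚ, (∀ l, g l ∈ Gs) →
      ∃ a : Fin t → MvPolynomial (Fin n) ℚ, (∀ i, a i ∈ As) ∧
      ∀ l m, coeff m (shR (fun v => (X v : MvPolynomial (Fin n) ℚ)) J (g l)) ∈
        Algebra.adjoin ℚ (Set.range a))
    (H1 : ∀ M ≤ t, ∀ a : Fin M → MvPolynomial (Fin n) ℚ, (∀ i, a i ∈ As) →
      ∀ J : Fin M → Fin n, (Matrix.of fun i j => pderiv (J j) (a i)).det ≠ 0 →
      aeval γ (Matrix.of fun i j => pderiv (J j) (a i)).det ≠ 0)
    (T : Fin r → MvPolynomial (Fin n) ℚ) (hT : ∀ i, T i ∈ Submonoid.closure Gs)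
    (hdet : (Matrix.of fun i j => pderiv (J j) (T i)).det ≠ 0) :
    AlgebraicIndependent ℚ (fun i => shR (fun v => algebraMap _
      (FractionRing (MvPolynomial (σ ⊕ (Fin t ⊕ Fin t)) ℚ))
        (Phi γ t (X v))) J (T i)) := by
  classical
  let A := MvPolynomial (Fin n) ℚ
  let B := MvPolynomial (σ ⊕ (Fin t ⊕ Fin t)) ℚ
  let Φ : A →+* B := (Phi γ t : A →+* B)
  have hmapO : ∀ f : A, map (plO Φ).subtype (map (aO Φ) (shR (fun v => (X v : A)) J f)) =
      shR (fun v => algebraMap A (FractionRing A) (X v)) J f := by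
    intro f
    rw [MvPolynomial.map_map, subtype_comp_aO, map_shR]
  have hmapρ : ∀ f : A, map (plρ Φ) (map (aO Φ) (shR (fun v => (X v : A)) J f)) =
      shR (fun v => algebraMap B (FractionRing B) (Phi γ t (X v))) J f := by
    intro f
    rw [MvPolynomial.map_map, plρ_comp_aO, map_shR]
    rfl
  have key := hV6 (FractionRing A) (FractionRing B) (plO Φ) (plρ Φ) r
    ((fun g => map (aO Φ) (shR (fun v => (X v : A)) J g)) '' Gs) ?_
    (fun i => map (aO Φ) (shR (fun v => (X v : A)) J (T i))) ?_ ?_
  · have h1 : AlgebraicIndependent ℚ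
        (fun i => map (plρ Φ) (map (aO Φ) (shR (fun v => (X v : A)) J (T i)))) :=
      key.restrictScalars (algebraMap ℚ (FractionRing B)).injective
    simp only [hmapρ] at h1
    exact h1
  · -- the coefficient fields are in the local ring
    intro τ hτ hcard x hx
    have hcoef : ∃ N ≤ t, ∃ p : Fin N → A, (∀ i, p i ∈ As) ∧ ∀ y ∈ τ, ∀ m,
        ∃ q ∈ Algebra.adjoin ℚ (Set.range p),
          ((coeff m (y : MvPolynomial (Fin r) (plO Φ)) : plO Φ) : FractionRing A) =
            algebraMap A (FractionRing A) q := by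
      rcases τ.eq_empty_or_nonempty with hτ0 | hτ0
      · refine ⟨0, Nat.zero_le _, Fin.elim0, fun i => i.elim0, ?_⟩
        intro y hy
        rw [hτ0] at hy
        exact absurd hy (Finset.notMem_empty y)
      · have hpos : 0 < τ.card := Finset.card_pos.mpr hτ0
        let e : Fin τ.card ≃ τ := τ.equivFin.symm
        let E : Fin (k + 1) → τ := fun i => if h : (i : ℕ) < τ.card then e ⟨i, h⟩ else e ⟨0, hpos⟩
        have hch : ∀ y : τ, ∃ g ∈ Gs, map (aO Φ) (shR (fun v => (X v : A)) J g) = y := by
          rintro ⟨y, hy⟩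
          exact hτ hy
        choose g hg hgy using hch
        obtain ⟨a, ha, hcoef⟩ := H2 (fun l => g (E l)) (fun l => hg _)
        refine ⟨t, le_rfl, a, ha, ?_⟩
        intro y hy m
        have hE : ∃ l, E l = ⟨y, hy⟩ := by
          refine ⟨⟨(e.symm ⟨y, hy⟩ : Fin τ.card), ?_⟩, ?_⟩
          · have := (e.symm ⟨y, hy⟩).2
            omega
          · simp [E]
        obtain ⟨l, hl⟩ := hE
        refine ⟨_, hcoef l m, ?_⟩
        have h1 := hgy (E l)
        have h2 : ((E l : τ) : MvPolynomial (Fin r) (plO Φ)) = y := congrArg Subtype.val hl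
        rw [h2] at h1
        have h3 : ((coeff m (map (aO Φ) (shR (fun v => (X v : A)) J (g (E l)))) : plO Φ) :
            FractionRing A) = ((coeff m y : plO Φ) : FractionRing A) :=
          congrArg (fun q => ((coeff m q : plO Φ) : FractionRing A)) h1
        rw [← h3, coeff_map]
        rfl
    obtain ⟨N, hNle, p, hp, hcoef⟩ := hcoef
    refine mem_plO_of_isAlgebraic Φ (Algebra.adjoin ℚ (Set.range p)) ?_ x ?_
    · intro P hP hP0
      exact Phi_inj γ N t hNle p
        (fun M hM e J hdet => H1 M (hM.trans hNle) (fun i => p (e i)) (fun i => hp _) J hdet)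
        P hP hP0
    · refine isAlgebraic_of_coefs (Set.range p) _ ?_ x hx
      show (coefField (τ : Set (MvPolynomial (Fin r) (plO Φ))) : Set (FractionRing A)) ⊆
        ((IntermediateField.adjoin ℚ (algebraMap A (FractionRing A) '' Set.range p)).toSubfield :
          Set (FractionRing A))
      rw [SetLike.coe_subset_coe]
      unfold coefField
      rw [Subfield.closure_le]
      rintro z ⟨y, hy, m, rfl⟩
      obtain ⟨q, hq, hqz⟩ := hcoef y hy m
      show ((coeff m y : plO Φ) : FractionRing A) ∈
        IntermediateField.adjoin ℚ (algebraMap A (FractionRing A) '' Set.range p)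
      rw [hqz]
      apply IntermediateField.algebra_adjoin_le_adjoin
      have h3 : Algebra.adjoin ℚ (algebraMap A (FractionRing A) '' Set.range p) =
          (Algebra.adjoin ℚ (Set.range p)).map (IsScalarTower.toAlgHom ℚ A (FractionRing A)) := by
        rw [AlgHom.map_adjoin]
        rfl
      rw [h3]
      exact ⟨q, hq, rfl⟩
  · -- products
    intro i
    have h1 := hT i
    have h2 : ∀ f ∈ Submonoid.closure Gs, map (aO Φ) (shR (fun v => (X v : A)) J f) ∈
        Submonoid.closure ((fun g => map (aO Φ) (shR (fun v => (X v : A)) J g)) '' Gs) := by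
      intro f hf
      induction hf using Submonoid.closure_induction with
      | mem g hg => exact Submonoid.subset_closure ⟨g, hg, rfl⟩
      | one => rw [map_one, map_one]; exact Submonoid.one_mem _
      | mul g h _ _ ihg ihh => rw [map_mul, map_mul]; exact Submonoid.mul_mem _ ihg ihh
    exact h2 _ h1
  · -- algebraic independence over the fraction field
    simp only [hmapO]
    have h1 := det_shR_ne_zero (fun v => algebraMap A (FractionRing A) (X v)) J T (by
      have h2 : ∀ f : A, aeval (fun v => algebraMap A (FractionRing A) (X v)) f =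
          algebraMap A (FractionRing A) f := by
        intro f
        have h3 : (aeval (fun v => algebraMap A (FractionRing A) (X v)) :
            A →ₐ[ℚ] FractionRing A) = IsScalarTower.toAlgHom ℚ A (FractionRing A) := by
          apply MvPolynomial.algHom_ext
          intro v
          rw [aeval_X]
          rfl
        rw [h3]
        rfl
      rw [h2]
      intro h0
      exact hdet (IsFractionRing.injective A (FractionRing A) (by rw [h0, map_zero])))
    exact algebraicIndependent_of_det (k := FractionRing A)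
      (fun j => (pderiv j : Derivation (FractionRing A) (MvPolynomial (Fin r) (FractionRing A)) _))
      _ h1

/-- **INTERFACE.** `γ + SV_{(k+1)t+k}` hits every nonzero polynomial in polynomials `T_i` of
transcendence degree at most `k` that are products of factors in `Gs`. -/
theorem interface (k t : ℕ) {σ : Type} (γ : Fin n → MvPolynomial σ ℚ)
    (Gs As : Set (MvPolynomial (Fin n) ℚ))
    (H2 : ∀ g : Fin (k + 1) → MvPolynomial (Fin n) ℚ, (∀ l, g l ∈ Gs) →
      ∀ r ≤ k, ∀ J : Fin r → Fin n, ∃ a : Fin t → MvPolynomial (Fin n) ℚ,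
      (∀ i, a i ∈ As) ∧ ∀ l m, coeff m (shR (fun v => (X v : MvPolynomial (Fin n) ℚ)) J (g l)) ∈
        Algebra.adjoin ℚ (Set.range a))
    (H1 : ∀ M ≤ t, ∀ a : Fin M → MvPolynomial (Fin n) ℚ, (∀ i, a i ∈ As) →
      ∀ J : Fin M → Fin n, (Matrix.of fun i j => pderiv (J j) (a i)).det ≠ 0 →
      aeval γ (Matrix.of fun i j => pderiv (J j) (a i)).det ≠ 0)
    {m : ℕ} (T : Fin m → MvPolynomial (Fin n) ℚ) (hT : ∀ i, T i ∈ Submonoid.closure Gs)
    (htr : ∀ b : Finset (Fin m), AlgebraicIndepOn ℚ T (b : Set (Fin m)) → b.card ≤ k)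
    (f : MvPolynomial (Fin n) ℚ) (hf : f ∈ Algebra.adjoin ℚ (Set.range T)) (hf0 : f ≠ 0) :
    Phi γ (t + k) f ≠ 0 := by
  classical
  obtain ⟨b, hb, halg⟩ := exists_basis (k := ℚ) T
  have hrk : b.card ≤ k := htr b hb
  set e : Fin b.card ≃ b := b.equivFin.symm with he
  have hind : AlgebraicIndependent ℚ (fun i => T (e i)) := by
    have h1 : AlgebraicIndependent ℚ (fun i : b => T i) := hb
    exact h1.comp e e.injective
  obtain ⟨J, hJ⟩ := exists_jacobian_minor _ hind
  have hind2 := algInd_of_V6 thmL' k t γ Gs As b.card hrk J (fun g hg => H2 g hg b.card hrk J) H1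
    (fun i => T (e i)) (fun i => hT _) hJ
  let B := MvPolynomial (σ ⊕ (Fin t ⊕ Fin t)) ℚ
  set β : Fin n → FractionRing B := fun v => algebraMap B (FractionRing B) (Phi γ t (X v)) with hβ
  have hind3 : AlgebraicIndepOn ℚ (fun i => shR β J (T i)) (b : Set (Fin m)) := by
    show AlgebraicIndependent ℚ (fun i : b => shR β J (T i))
    have h1 : (fun i : b => shR β J (T i)) = (fun i => shR β J (T (e i))) ∘ e.symm := by
      funext i
      simp
    rw [h1]
    exact hind2.comp _ e.symm.injective
  have hne := faithful (shR β J) T (b : Set (Fin m)) hind3 halg f hf hf0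
  have hne2 : shR (fun v => (Phi γ t (X v) : B)) J f ≠ 0 := by
    intro h0
    apply hne
    have h1 := map_shR (algebraMap B (FractionRing B)) (fun v => (Phi γ t (X v) : B)) J f
    rw [h0, map_zero] at h1
    exact h1.symm
  obtain ⟨s, u, hu⟩ := exists_point _ J f hne2
  refine Phi_ne_zero γ (t + k) f (fun i => s (Sum.inl i)) _ ?_ hu
  -- the seeds
  have h1 : ∀ v, eval s (Phi γ t (X v)) = eval (fun i => s (Sum.inl i)) (γ v) +
      gen n t (fun i => s (Sum.inr i)) v := by
    intro v
    rw [eval_Phi, eval_X]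
  have h2 : (fun v => gen n t (fun i => s (Sum.inr i)) v + ∑ j, if J j = v then u j else 0) ∈
      G n (t + k) := by
    refine G_step (κ := k) (⟨fun i => s (Sum.inr i), rfl⟩ :
      gen n t (fun i => s (Sum.inr i)) ∈ G n t) _ (Finset.univ.image J)
      ((Finset.card_image_le).trans (by simpa using hrk)) ?_
    intro v hv
    have : ∀ j, ¬ J j = v := by
      intro j hj
      apply hv
      rw [Finset.mem_image]
      exact ⟨j, Finset.mem_univ _, hj⟩
    simp [this]
  have h3 : (fun v => (eval s (Phi γ t (X v)) + ∑ j, if J j = v then u j else 0) -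
      eval (fun i => s (Sum.inl i)) (γ v)) =
      (fun v => gen n t (fun i => s (Sum.inr i)) v + ∑ j, if J j = v then u j else 0) := by
    funext v
    rw [h1]
    ring
  rw [h3]
  exact h2

end VF
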