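import Pool.Agent.Helper5.V.Defs

/-!
The place of the fraction field of `A` given by a ring homomorphism `Φ : A → B` to a domain.
-/

namespace VF

universe u

section Place

variable {A B : Type u} [CommRing A] [IsDomain A] [CommRing B] [IsDomain B] (Φ : A →+* B)

/-- the submonoid of the elements that are not killed -/
def nk : Submonoid A := (nonZeroDivisors B).comap Φ

theorem mem_nk {b : A} : b ∈ nk Φ ↔ Φ b ≠ 0 := by
  simp [nk, mem_nonZeroDivisors_iff_ne_zero]

theorem nk_le : nk Φ ≤ nonZeroDivisors A := by
  intro b hb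
  rw [mem_nk] at hb
  rw [mem_nonZeroDivisors_iff_ne_zero]
  rintro rfl
  exact hb (map_zero Φ)

/-- the local ring of the place, as a subalgebra of the fraction field -/
noncomputable abbrev locA : Subalgebra A (FractionRing A) :=
  Localization.subalgebra.ofField (FractionRing A) (nk Φ) (nk_le Φ)

/-- the local ring of the place, as a subring of the fraction field -/
noncomputable def plO : Subring (FractionRing A) := (locA Φ).toSubring

theorem mem_plO {x : FractionRing A} (a b : A) (hb : Φ b ≠ 0)
    (h : algebraMap A (FractionRing A) b * x = algebraMap A _ a) : x ∈ plO Φ := by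
  show x ∈ locA Φ
  refine ⟨a, b, (mem_nk Φ).mpr hb, ?_⟩
  have hb0 : algebraMap A (FractionRing A) b ≠ 0 := by
    intro h0
    have h1 : b = 0 := IsFractionRing.injective A (FractionRing A) (by rw [h0, map_zero])
    rw [h1, map_zero] at hb
    exact hb rfl
  rw [← h]
  field_simp

theorem algebraMap_mem_plO (a : A) : algebraMap A (FractionRing A) a ∈ plO Φ :=
  (locA Φ).algebraMap_mem a

/-- the identity -/
noncomputable def toLoc : plO Φ →+* locA Φ where
  toFun x := ⟨x.1, x.2⟩
  map_one' := rfl
  map_mul' _ _ := rfl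
  map_zero' := rfl
  map_add' _ _ := rfl

theorem isUnit_nk (y : nk Φ) : IsUnit ((algebraMap B (FractionRing B)).comp Φ y) := by
  rw [isUnit_iff_ne_zero]
  intro h0
  exact (mem_nk Φ).mp y.2 (IsFractionRing.injective B (FractionRing B) (by rw [map_zero]; exact h0))

/-- the residue map of the place -/
noncomputable def plρ : plO Φ →+* FractionRing B :=
  (IsLocalization.lift (M := nk Φ) (S := locA Φ) (g := (algebraMap B (FractionRing B)).comp Φ)
    (isUnit_nk Φ)).comp (toLoc Φ)

/-- the inclusion of `A` in the local ring -/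
noncomputable def aO : A →+* plO Φ :=
  (algebraMap A (FractionRing A)).codRestrict (plO Φ) (algebraMap_mem_plO Φ)

@[simp] theorem coe_aO (a : A) : (aO Φ a : FractionRing A) = algebraMap A _ a := rfl

theorem plρ_aO (a : A) : plρ Φ (aO Φ a) = algebraMap B (FractionRing B) (Φ a) := by
  have h1 : toLoc Φ (aO Φ a) = algebraMap A (locA Φ) a := rfl
  rw [plρ, RingHom.comp_apply, h1, IsLocalization.lift_eq, RingHom.comp_apply]

theorem plρ_comp_aO : (plρ Φ).comp (aO Φ) = (algebraMap B (FractionRing B)).comp Φ :=
  RingHom.ext (plρ_aO Φ)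

theorem subtype_comp_aO : (plO Φ).subtype.comp (aO Φ) = algebraMap A (FractionRing A) :=
  RingHom.ext fun _ => rfl

/-- elements that are algebraic over a subring on which `Φ` is injective are in the local ring -/
theorem mem_plO_of_isAlgebraic [IsIntegrallyClosed A] {k : Type*} [CommRing k] [Algebra k A]
    (R1 : Subalgebra k A) (hR : ∀ p ∈ R1, p ≠ 0 → Φ p ≠ 0) (x : FractionRing A)
    (hx : IsAlgebraic R1 x) : x ∈ plO Φ := by
  obtain ⟨y, hy, hint⟩ := hx.exists_integral_multiple
  have h1 : IsIntegral A (y • x) := hint.tower_top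
  obtain ⟨a, ha⟩ := IsIntegrallyClosed.isIntegral_iff.mp h1
  refine mem_plO Φ a (y : A) (hR _ y.2 ?_) ?_
  · intro h0
    exact hy (Subtype.ext h0)
  · rw [ha, Algebra.smul_def]
    rfl

end Place

/-- algebraicity over the field generated by elements of an algebra -/
theorem isAlgebraic_of_coefs {A K : Type u} [CommRing A] [Algebra ℚ A] [Field K]
    [Algebra A K] [Algebra ℚ K] [IsScalarTower ℚ A K] (S : Set A) (F : Subfield K)
    (hF : (F : Set K) ⊆ IntermediateField.adjoin ℚ (algebraMap A K '' S))
    (x : K) (hx : IsAlgebraic F x) : IsAlgebraic (Algebra.adjoin ℚ S) x := by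
  set S' : Set K := algebraMap A K '' S with hS'
  set F1 := IntermediateField.adjoin ℚ S' with hF1
  have h1 : IsAlgebraic F1 x := by
    let f : F →+* F1 :=
      { toFun := fun y => ⟨y.1, hF y.2⟩
        map_one' := rfl
        map_mul' := fun _ _ => rfl
        map_zero' := rfl
        map_add' := fun _ _ => rfl }
    exact hx.ringHom_of_comp_eq f (RingHom.id K) f.injective rfl
  have h2 : IsAlgebraic (Algebra.adjoin ℚ S') x := by
    open IntermediateField.algebraAdjoinAdjoin in
    exact (IsFractionRing.isAlgebraic_iff (Algebra.adjoin ℚ S') F1 K).mpr h1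
  have h3 : Algebra.adjoin ℚ S' = (Algebra.adjoin ℚ S).map (IsScalarTower.toAlgHom ℚ A K) := by
    rw [AlgHom.map_adjoin]
    rfl
  let g : Algebra.adjoin ℚ S →+* Algebra.adjoin ℚ S' :=
    { toFun := fun y => ⟨algebraMap A K y.1, by rw [h3]; exact ⟨y.1, y.2, rfl⟩⟩
      map_one' := Subtype.ext (map_one _)
      map_mul' := fun _ _ => Subtype.ext (map_mul _ _ _)
      map_zero' := Subtype.ext (map_zero _)
      map_add' := fun _ _ => Subtype.ext (map_add _ _ _) }
  have hg : Function.Surjective g := by
    rintro ⟨y, hy⟩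
    have hy' := hy
    rw [h3] at hy'
    obtain ⟨z, hz, hzy⟩ := hy'
    exact ⟨⟨z, hz⟩, Subtype.ext hzy⟩
  exact h2.of_ringHom_of_comp_eq g (RingHom.id K) hg (fun _ _ h => h) rfl

end VF
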