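import Pool.Agent.Helper5.V.Interface

/-!
Post-processing for base generator `SV_B`.
-/

namespace VF

open MvPolynomial Pool.Agent.Helper5 Pool.Agent.Helper5.D4

variable {n : ℕ}

theorem gen_append (B M : ℕ) (s : Fin B ⊕ Fin B → ℚ) (z : Fin M ⊕ Fin M → ℚ) :
    gen n (B + M) (Sum.elim (Fin.append (fun l => s (Sum.inl l)) (fun l => z (Sum.inl l)))
      (Fin.append (fun l => s (Sum.inr l)) (fun l => z (Sum.inr l)))) =
      fun i => gen n B s i + gen n M z i := by
  funext i
  unfold gen
  rw [Fin.sum_univ_add]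
  congr 1
  · refine Finset.sum_congr rfl fun l _ => ?_
    simp only [Sum.elim_inl, Sum.elim_inr, Fin.append_left]
  · refine Finset.sum_congr rfl fun l _ => ?_
    simp only [Sum.elim_inl, Sum.elim_inr, Fin.append_right]

theorem exists_gen_of_Phi {B M : ℕ} {f : MvPolynomial (Fin n) ℚ}
    (h : Phi (genPoly n B) M f ≠ 0) : ∃ s, eval (gen n (B + M) s) f ≠ 0 := by
  have h1 : ∃ w, eval w (Phi (genPoly n B) M f) ≠ 0 := by
    by_contra hcon
    push Not at hcon
    apply h
    apply MvPolynomial.funext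
    intro w
    rw [hcon w, map_zero]
  obtain ⟨w, hw⟩ := h1
  rw [eval_Phi] at hw
  refine ⟨Sum.elim (Fin.append (fun l => w (Sum.inl (Sum.inl l))) (fun l => w (Sum.inr (Sum.inl l))))
      (Fin.append (fun l => w (Sum.inl (Sum.inr l))) (fun l => w (Sum.inr (Sum.inr l)))), ?_⟩
  have h2 := gen_append (n := n) B M (fun i => w (Sum.inl i)) (fun i => w (Sum.inr i))
  rw [h2]
  have h3 : (fun v => eval (fun i => w (Sum.inl i)) (genPoly n B v) +
      gen n M (fun i => w (Sum.inr i)) v) =
      fun i => gen n B (fun i => w (Sum.inl i)) i + gen n M (fun i => w (Sum.inr i)) i := by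
    funext v
    rw [eval_genPoly]
  rw [h3] at hw
  exact hw

/-- the conclusion in terms of the explicit hitting set -/
theorem hit_of_Phi {B M D : ℕ} {f : MvPolynomial (Fin n) ℚ}
    (h : Phi (genPoly n B) M f ≠ 0) (hD : f.totalDegree ≤ D) :
    ∃ x ∈ hittingSet n (B + M) D, eval x f ≠ 0 :=
  hit_grid f D hD (B + M) (exists_gen_of_Phi h)

end VF
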