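import Pool.Agent.Helper5.V.Place
import Pool.Agent.Helper5.D4.Faithful
import Pool.Agent.Helper5.D4.GenInj
import Pool.Agent.Helper5.D4.Jac2

/-!
Shifts `x_v ↦ β_v + ∑_{J j = v} u_j`, and the combined generator `γ + SV_M`.
-/

namespace VF

open MvPolynomial Pool.Agent.Helper5 Pool.Agent.Helper5.D4

/-- ring homs out of a polynomial ring over `ℚ` agree if they agree on the variables -/
theorem ringHom_ext_rat {σ S : Type*} [CommSemiring S] {f g : MvPolynomial σ ℚ →+* S}
    (h : ∀ v, f (X v) = g (X v)) : f = g := by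
  apply MvPolynomial.ringHom_ext _ h
  intro c
  exact DFunLike.congr_fun (RingHom.ext_rat (f.comp C) (g.comp C)) c

section Shift

variable {n r : ℕ} {R : Type*} [CommRing R] [Algebra ℚ R]

/-- the shift -/
noncomputable def shR (β : Fin n → R) (J : Fin r → Fin n) :
    MvPolynomial (Fin n) ℚ →ₐ[ℚ] MvPolynomial (Fin r) R :=
  aeval (fun v => C (β v) + ∑ j, if J j = v then X j else 0)

theorem pderiv_shR (β : Fin n → R) (J : Fin r → Fin n) (j : Fin r) (f : MvPolynomial (Fin n) ℚ) :
    pderiv j (shR β J f) = shR β J (pderiv (J j) f) := by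
  classical
  have h := chain_rule ((pderiv j : Derivation R (MvPolynomial (Fin r) R) _).restrictScalars ℚ)
    (fun v => C (β v) + ∑ j, if J j = v then X j else 0) f
  have h1 : ∀ v, ((pderiv j : Derivation R (MvPolynomial (Fin r) R) _).restrictScalars ℚ)
      (C (β v) + ∑ j, if J j = v then X j else 0) = if J j = v then 1 else 0 := by
    intro v
    show pderiv j (C (β v) + ∑ j, if J j = v then X j else 0) = _
    rw [map_add, pderiv_C, zero_add, map_sum]
    have h2 : ∀ i, pderiv j (if J i = v then X i else 0 : MvPolynomial (Fin r) R) =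
        if i = j then (if J i = v then 1 else 0) else 0 := by
      intro i
      by_cases h : J i = v
      · rw [if_pos h, if_pos h, pderiv_X]
        by_cases hij : i = j
        · subst hij; simp
        · simp [hij]
      · rw [if_neg h, if_neg h, map_zero, ite_self]
    simp only [h2, Finset.sum_ite_eq', Finset.mem_univ, if_true]
  simp only [h1, mul_ite, mul_one, mul_zero] at h
  rw [Finset.sum_ite_eq Finset.univ (J j), if_pos (Finset.mem_univ _)] at h
  exact h

theorem constantCoeff_shR (β : Fin n → R) (J : Fin r → Fin n) (f : MvPolynomial (Fin n) ℚ) :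
    constantCoeff (shR β J f) = aeval β f := by
  classical
  have h : (constantCoeff : MvPolynomial (Fin r) R →+* R).comp
      (shR β J : MvPolynomial (Fin n) ℚ →+* MvPolynomial (Fin r) R) =
      (aeval β : MvPolynomial (Fin n) ℚ →ₐ[ℚ] R) := by
    apply ringHom_ext_rat
    intro v
    simp only [shR, RingHom.comp_apply, RingHom.coe_coe, aeval_X, map_add, map_sum,
      constantCoeff_C]
    rw [Finset.sum_eq_zero, add_zero]
    intro j _
    by_cases h : J j = v
    · rw [if_pos h, constantCoeff_X]
    · rw [if_neg h, map_zero]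
  exact congrArg (fun g => g f) h

theorem map_shR {R' : Type*} [CommRing R'] [Algebra ℚ R'] (h : R →+* R') (β : Fin n → R)
    (J : Fin r → Fin n) (f : MvPolynomial (Fin n) ℚ) :
    map h (shR β J f) = shR (fun v => h (β v)) J f := by
  classical
  have h' : (map h).comp (shR β J : MvPolynomial (Fin n) ℚ →+* MvPolynomial (Fin r) R) =
      (shR (fun v => h (β v)) J : MvPolynomial (Fin n) ℚ →+* MvPolynomial (Fin r) R') := by
    apply ringHom_ext_rat
    intro v
    simp only [shR, RingHom.comp_apply, RingHom.coe_coe, aeval_X, map_add, map_sum, map_C]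
    congr 1
    refine Finset.sum_congr rfl fun j _ => ?_
    by_cases h : J j = v
    · rw [if_pos h, if_pos h, map_X]
    · rw [if_neg h, if_neg h, map_zero]
  exact congrArg (fun g => g f) h'

theorem det_shR_ne_zero (β : Fin n → R) (J : Fin r → Fin n) (T : Fin r → MvPolynomial (Fin n) ℚ)
    (h : aeval β (Matrix.of fun i j => pderiv (J j) (T i)).det ≠ 0) :
    (Matrix.of fun i j => pderiv j (shR β J (T i))).det ≠ 0 := by
  classical
  intro h0
  apply h
  rw [← constantCoeff_shR β J, AlgHom.map_det]
  have h1 : (shR β J).mapMatrix (Matrix.of fun i j => pderiv (J j) (T i)) =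
      Matrix.of fun i j => pderiv j (shR β J (T i)) := by
    ext i j : 1
    simp only [AlgHom.mapMatrix_apply, Matrix.map_apply, Matrix.of_apply]
    rw [pderiv_shR]
  rw [h1, h0, map_zero]

theorem algInd_shR [IsDomain R] (β : Fin n → R) (J : Fin r → Fin n)
    (T : Fin r → MvPolynomial (Fin n) ℚ)
    (h : aeval β (Matrix.of fun i j => pderiv (J j) (T i)).det ≠ 0) :
    AlgebraicIndependent ℚ (fun i => shR β J (T i)) :=
  algebraicIndependent_of_det
    (fun j => (pderiv j : Derivation R (MvPolynomial (Fin r) R) _).restrictScalars ℚ) _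
    (det_shR_ne_zero β J T h)

/-- a nonzero shift at a polynomial base point is nonzero at a point -/
theorem exists_point {σ : Type*} (β : Fin n → MvPolynomial σ ℚ) (J : Fin r → Fin n)
    (f : MvPolynomial (Fin n) ℚ) (hf : shR β J f ≠ 0) :
    ∃ (s : σ → ℚ) (u : Fin r → ℚ),
      eval (fun v => eval s (β v) + ∑ j, if J j = v then u j else 0) f ≠ 0 := by
  classical
  have h1 : ∃ s : σ → ℚ, map (eval s) (shR β J f) ≠ 0 := by
    by_contra hcon
    push Not at hcon
    apply hf
    refine MvPolynomial.ext _ _ fun m => ?_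
    rw [coeff_zero]
    apply MvPolynomial.funext
    intro s
    have h2 := congrArg (coeff m) (hcon s)
    rw [coeff_map, coeff_zero] at h2
    rw [h2, map_zero]
  obtain ⟨s, hs⟩ := h1
  have h2 : ∃ u : Fin r → ℚ, eval u (map (eval s) (shR β J f)) ≠ 0 := by
    by_contra hcon
    push Not at hcon
    apply hs
    apply MvPolynomial.funext
    intro u
    rw [hcon u, map_zero]
  obtain ⟨u, hu⟩ := h2
  refine ⟨s, u, ?_⟩
  have h3 : eval u (map (eval s) (shR β J f)) =
      eval (fun v => eval s (β v) + ∑ j, if J j = v then u j else 0) f := by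
    rw [map_shR]
    have h : (eval u).comp (shR (fun v => eval s (β v)) J :
        MvPolynomial (Fin n) ℚ →+* MvPolynomial (Fin r) ℚ) =
        eval (fun v => eval s (β v) + ∑ j, if J j = v then u j else 0) := by
      apply ringHom_ext_rat
      intro v
      simp only [shR, RingHom.comp_apply, RingHom.coe_coe, aeval_X, map_add, map_sum, eval_C,
        eval_X]
      congr 1
      refine Finset.sum_congr rfl fun j _ => ?_
      by_cases h : J j = v <;> simp [h]
    exact congrArg (fun g => g f) h
  rw [← h3]
  exact hu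

end Shift

section Phi

variable {n : ℕ} {σ : Type*}

/-- the combined generator `γ + SV_M` -/
noncomputable def Phi (γ : Fin n → MvPolynomial σ ℚ) (M : ℕ) :
    MvPolynomial (Fin n) ℚ →ₐ[ℚ] MvPolynomial (σ ⊕ (Fin M ⊕ Fin M)) ℚ :=
  aeval (fun v => rename Sum.inl (γ v) + rename Sum.inr (genPoly n M v))

theorem eval_Phi (γ : Fin n → MvPolynomial σ ℚ) (M : ℕ) (w : σ ⊕ (Fin M ⊕ Fin M) → ℚ)
    (f : MvPolynomial (Fin n) ℚ) :
    eval w (Phi γ M f) =
      eval (fun v => eval (fun i => w (Sum.inl i)) (γ v) + gen n M (fun i => w (Sum.inr i)) v) f := by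
  have h : (eval w).comp (Phi γ M : MvPolynomial (Fin n) ℚ →+* _) =
      eval (fun v => eval (fun i => w (Sum.inl i)) (γ v) + gen n M (fun i => w (Sum.inr i)) v) := by
    apply ringHom_ext_rat
    intro v
    simp only [Phi, RingHom.comp_apply, RingHom.coe_coe, aeval_X, map_add, eval_rename, eval_X]
    rw [← eval_genPoly]
    rfl
  exact congrArg (fun g => g f) h

theorem Phi_ne_zero (γ : Fin n → MvPolynomial σ ℚ) (M : ℕ) (f : MvPolynomial (Fin n) ℚ)
    (s : σ → ℚ) (x : Fin n → ℚ) (hx : (fun v => x v - eval s (γ v)) ∈ G n M)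
    (hf : eval x f ≠ 0) : Phi γ M f ≠ 0 := by
  obtain ⟨z, hz⟩ := hx
  intro h0
  apply hf
  have h1 := eval_Phi γ M (Sum.elim s z) f
  rw [h0, map_zero] at h1
  rw [h1]
  congr 1
  refine congrArg eval ?_
  funext v
  have h2 := congrFun hz v
  simp only [Sum.elim_inl, Sum.elim_inr]
  rw [show (fun i => z i) = z from rfl, h2]
  ring

end Phi

end VF
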